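import Pool.Agent.H590.PL.Stm

/-!
# Task OR: the integrals for the standard basis (MP_85210c_gt, planar case)
-/

set_option autoImplicit false

open MeasureTheory Filter Topology Set

namespace Pool.Agent.H661.PL

open H590PL

theorem I0 (p b : ℝ) (hp : 0 < p) (hb : 0 < b) :
    ∫ u : ℝ, Real.exp (-(b * |u| ^ p)) = b ^ (-(1 / p)) * (2 * Real.Gamma (1 + 1 / p)) := by
  have h1 := integral_comp_abs (f := fun u : ℝ => Real.exp (-(b * u ^ p)))
  rw [h1]
  have h2 := integral_exp_neg_mul_rpow hp hb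
  have h3 : ∫ x in Ioi (0 : ℝ), Real.exp (-(b * x ^ p)) =
      ∫ x in Ioi (0 : ℝ), Real.exp (-b * x ^ p) := by
    congr 1
    funext x
    rw [neg_mul]
  rw [h3, h2, neg_div, add_comm (1 / p) 1]
  ring

theorem I1 (p b : ℝ) (hp : 1 < p) (hb : 0 < b) :
    ∫ u : ℝ, Real.exp (-(b * |u| ^ p)) * (p * b * |u| ^ (p - 2)) =
      b ^ (1 / p) * (2 * Real.Gamma (1 - 1 / p)) := by
  have hp0 : 0 < p := by linarith
  have h1 := integral_comp_abs
    (f := fun u : ℝ => Real.exp (-(b * u ^ p)) * (p * b * u ^ (p - 2)))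
  rw [h1]
  have h2 := integral_rpow_mul_exp_neg_mul_rpow (p := p) (q := p - 2) (b := b) hp0
    (by linarith) hb
  have h3 : ∫ x in Ioi (0 : ℝ), Real.exp (-(b * x ^ p)) * (p * b * x ^ (p - 2)) =
      p * b * ∫ x in Ioi (0 : ℝ), x ^ (p - 2) * Real.exp (-b * x ^ p) := by
    rw [← integral_const_mul]
    congr 1
    funext x
    rw [neg_mul]
    ring
  have h4 : (p - 2 + 1) / p = 1 - 1 / p := by
    field_simp
    ring
  have h5 : -(p - 2 + 1) / p = 1 / p - 1 := by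
    field_simp
    ring
  have h6 : b * b ^ (1 / p - 1) = b ^ (1 / p) := by
    rw [Real.rpow_sub hb, Real.rpow_one]
    field_simp
  rw [h3, h2, h4, h5, ← h6]
  field_simp

theorem FF_ee (p : ℝ) (b : Fin 2 → ℝ) :
    FF p ee b = (∫ u : ℝ, Real.exp (-(b 0 * |u| ^ p))) * ∫ u : ℝ, Real.exp (-(b 1 * |u| ^ p)) := by
  rw [← integral_prod_mul, ← Measure.volume_eq_prod]
  unfold FF
  congr 1
  funext x
  rw [← Real.exp_add]
  congr 1
  simp [Ph, ip, ee, Fin.sum_univ_two]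
  ring

theorem AA_ee (p : ℝ) (b : Fin 2 → ℝ) :
    AA p ee b = (∫ u : ℝ, Real.exp (-(b 0 * |u| ^ p)) * (p * b 0 * |u| ^ (p - 2))) *
      ∫ u : ℝ, Real.exp (-(b 1 * |u| ^ p)) * (p * b 1 * |u| ^ (p - 2)) := by
  rw [← integral_prod_mul, ← Measure.volume_eq_prod]
  unfold AA
  congr 1
  funext x
  have h1 : Real.exp (-(Ph p ee b x)) =
      Real.exp (-(b 0 * |x.1| ^ p)) * Real.exp (-(b 1 * |x.2| ^ p)) := by
    rw [← Real.exp_add]
    congr 1
    simp [Ph, ip, ee, Fin.sum_univ_two]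
    ring
  have h2 : DD p ee b x = (p * b 0 * |x.1| ^ (p - 2)) * (p * b 1 * |x.2| ^ (p - 2)) := by
    simp [DD, dt, ip, ee, Fin.sum_univ_two]
    ring
  rw [h1, h2]
  ring

theorem OR : S_OR := by
  intro p hp1 hp2
  have hp0 : 0 < p := by linarith
  have hone : ∀ k : Fin 2, one k = (1 : ℝ) := fun k => rfl
  have hF : FF p ee one = (2 * Real.Gamma (1 + 1 / p)) ^ 2 := by
    rw [FF_ee, hone, hone, I0 p 1 hp0 one_pos, Real.one_rpow]
    ring
  have hA : AA p ee one = (2 * Real.Gamma (1 - 1 / p)) ^ 2 := by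
    rw [AA_ee, hone, hone, I1 p 1 hp1 one_pos, Real.one_rpow]
    ring
  refine ⟨hF, hA, ?_⟩
  intro k y hy
  have hy0 : 0 < 1 + y := by linarith
  rw [FF_ee, AA_ee, hF, hA]
  fin_cases k
  · have h0 : bu (0 : Fin 2) y 0 = 1 + y := by simp [bu]
    have h1 : bu (0 : Fin 2) y 1 = 1 := by simp [bu]
    simp only [Fin.zero_eta]
    rw [h0, h1, I0 p 1 hp0 one_pos, I0 p _ hp0 hy0, I1 p 1 hp1 one_pos, I1 p _ hp1 hy0,
      Real.one_rpow, Real.one_rpow]
    constructor <;> ring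
  · have h0 : bu (1 : Fin 2) y 0 = 1 := by simp [bu]
    have h1 : bu (1 : Fin 2) y 1 = 1 + y := by simp [bu]
    simp only [Fin.mk_one]
    rw [h0, h1, I0 p 1 hp0 one_pos, I0 p _ hp0 hy0, I1 p 1 hp1 one_pos, I1 p _ hp1 hy0,
      Real.one_rpow, Real.one_rpow]
    constructor <;> ring

end Pool.Agent.H661.PL
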